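import Mathlib
import Pool.Agent.MP_c1891a_nt.H79.Spec

/-
Simultaneous approximants by Siegel's lemma.
-/

namespace Pool.Agent.MP_c1891a_nt.H76

open Finset Polynomial Matrix
open Pool.Agent.MP_c1891a_nt.H79

attribute [local instance] Matrix.seminormedAddCommGroup

theorem siegel {α β : Type} [Fintype α] [Fintype β] (A : Matrix α β ℤ) (H E : ℕ) (hH : 1 ≤ H)
    (hA : ∀ i j, |A i j| ≤ H) (hlt : Fintype.card α < Fintype.card β)
    (hE : Fintype.card α ≤ E * (Fintype.card β - Fintype.card α)) :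
    ∃ t : β → ℤ, t ≠ 0 ∧ A *ᵥ t = 0 ∧ ∀ j, |t j| ≤ ((Fintype.card β * H) ^ E : ℕ) := by
  classical
  have hb : 1 ≤ Fintype.card β := by omega
  have h1 : 1 ≤ (Fintype.card β * H) ^ E := Nat.one_le_pow _ _ (Nat.mul_pos hb hH)
  rcases Nat.eq_zero_or_pos (Fintype.card α) with h0 | h0
  · have : IsEmpty α := Fintype.card_eq_zero_iff.mp h0
    obtain ⟨b⟩ : Nonempty β := Fintype.card_pos_iff.mp hb
    refine ⟨fun _ => 1, ?_, ?_, ?_⟩
    · intro h
      have := congrFun h b
      simp at this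
    · ext i
      exact isEmptyElim i
    · intro j
      simp only [abs_one]
      exact_mod_cast h1
  · obtain ⟨t, ht0, ht1, ht2⟩ := Int.Matrix.exists_ne_zero_int_vec_norm_le A hlt h0
    refine ⟨t, ht0, ht1, fun j => ?_⟩
    have hn : ‖A‖ ≤ (H : ℝ) := by
      rw [Matrix.norm_le_iff (by positivity)]
      intro i j
      rw [Int.norm_eq_abs]
      exact_mod_cast hA i j
    have hH' : (1 : ℝ) ≤ H := by exact_mod_cast hH
    have hb' : (1 : ℝ) ≤ Fintype.card β := by exact_mod_cast hb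
    have hm : max 1 ‖A‖ ≤ (H : ℝ) := max_le hH' hn
    have hpos : (0 : ℝ) < (Fintype.card β : ℝ) - Fintype.card α := by
      have : (Fintype.card α : ℝ) < Fintype.card β := by exact_mod_cast hlt
      linarith
    have hex : (Fintype.card α : ℝ) / ((Fintype.card β : ℝ) - Fintype.card α) ≤ (E : ℝ) := by
      rw [div_le_iff₀ hpos]
      have : ((Fintype.card α : ℕ) : ℝ) ≤ ((E * (Fintype.card β - Fintype.card α) : ℕ) : ℝ) := by
        exact_mod_cast hE
      rw [Nat.cast_mul, Nat.cast_sub hlt.le] at this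
      exact this
    have hbase : (1 : ℝ) ≤ Fintype.card β * max 1 ‖A‖ :=
      one_le_mul_of_one_le_of_one_le hb' (le_max_left _ _)
    have h2 : ‖t j‖ ≤ ((Fintype.card β : ℝ) * H) ^ E := by
      calc ‖t j‖ ≤ ‖t‖ := norm_le_pi_norm t j
        _ ≤ _ := ht2
        _ ≤ ((Fintype.card β : ℝ) * max 1 ‖A‖) ^ (E : ℝ) :=
          Real.rpow_le_rpow_of_exponent_le hbase hex
        _ = ((Fintype.card β : ℝ) * max 1 ‖A‖) ^ E := Real.rpow_natCast _ _
        _ ≤ _ := by gcongr
    rw [Int.norm_eq_abs] at h2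
    exact_mod_cast h2

theorem lcm_le : ∃ L : ℕ, 1 ≤ L ∧ ∀ n, Nat.lcmUpto n ≤ L ^ n := by
  refine ⟨⌈Real.exp (Real.log 4 + 4)⌉₊, ?_, fun n => ?_⟩
  · exact Nat.ceil_pos.mpr (Real.exp_pos _)
  · have h1 := Chebyshev.psi_le_const_mul_self (x := (n : ℝ)) (by positivity)
    rw [Chebyshev.psi_eq_log_lcmUpto] at h1
    have h2 : (0 : ℝ) < Nat.lcmUpto n := by exact_mod_cast Nat.lcmUpto_pos n
    have h3 : (Nat.lcmUpto n : ℝ) ≤ Real.exp (Real.log 4 + 4) ^ n := by
      rw [← Real.exp_nat_mul, ← Real.exp_log h2]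
      apply Real.exp_le_exp.mpr
      linarith
    have h4 : Real.exp (Real.log 4 + 4) ^ n ≤ ((⌈Real.exp (Real.log 4 + 4)⌉₊ : ℕ) : ℝ) ^ n := by
      gcongr
      exact Nat.le_ceil _
    exact_mod_cast h3.trans h4

theorem lcm_dvd {j n : ℕ} (h : j ≤ n) : Nat.lcmUpto j ∣ Nat.lcmUpto n := by
  unfold Nat.lcmUpto
  exact Finset.lcm_mono (Finset.Icc_subset_Icc_right h)

theorem den_le {f : PowerSeries ℚ} (h : Den f) (N k : ℕ) :
    ∃ m : ℤ, k ≤ N → (Nat.lcmUpto N : ℚ) * PowerSeries.coeff k f = m := by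
  by_cases hk : k ≤ N
  · obtain ⟨m, hm⟩ := h k
    obtain ⟨c, hc⟩ := lcm_dvd hk
    refine ⟨m * c, fun _ => ?_⟩
    rw [hc]
    push_cast
    rw [← hm]
    ring
  · exact ⟨0, fun h => absurd h hk⟩

/-- the polynomial with the given coefficients. -/
noncomputable def pol {n : ℕ} (t : Fin n → ℤ) : ℚ[X] := ∑ l : Fin n, monomial (l : ℕ) (t l : ℚ)

theorem pol_coeff {n : ℕ} (t : Fin n → ℤ) (k : ℕ) :
    (pol t).coeff k = if h : k < n then (t ⟨k, h⟩ : ℚ) else 0 := by
  unfold pol
  rw [finsetSum_coeff]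
  simp only [coeff_monomial]
  split_ifs with h
  · rw [Finset.sum_eq_single ⟨k, h⟩]
    · simp
    · intro b _ hb
      rw [if_neg]
      intro h'
      exact hb (Fin.ext h')
    · simp
  · apply Finset.sum_eq_zero
    intro l _
    rw [if_neg]
    intro h'
    exact h (h' ▸ l.2)

theorem pol_mul {n : ℕ} (t : Fin n → ℤ) (f : PowerSeries ℚ) (j : ℕ) (hj : n ≤ j) :
    PowerSeries.coeff j ((pol t : PowerSeries ℚ) * f) =
      ∑ l : Fin n, (t l : ℚ) * PowerSeries.coeff (j - l) f := by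
  have h1 : (pol t : PowerSeries ℚ) =
      ∑ l : Fin n, PowerSeries.C (t l : ℚ) * PowerSeries.X ^ (l : ℕ) := by
    unfold pol
    rw [← Polynomial.coeToPowerSeries.ringHom_apply, map_sum]
    refine Finset.sum_congr rfl fun l _ => ?_
    rw [← C_mul_X_pow_eq_monomial, Polynomial.coeToPowerSeries.ringHom_apply, Polynomial.coe_mul,
      Polynomial.coe_C, Polynomial.coe_pow, Polynomial.coe_X]
  rw [h1, Finset.sum_mul, map_sum]
  refine Finset.sum_congr rfl fun l _ => ?_
  rw [mul_assoc, PowerSeries.coeff_C_mul, PowerSeries.coeff_X_pow_mul', if_pos]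
  have := l.2
  omega

theorem pade : SPade := by
  intro r f h0 hf K hK
  obtain ⟨L, hL1, hL⟩ := lcm_le
  choose Cs hCs using fun j => (hf j).2
  set B : ℕ := 1 + ∑ j, Cs j with hB
  have hB1 : 1 ≤ B := by omega
  have hCB : ∀ j, Cs j ≤ B := fun j => by
    have := Finset.single_le_sum (f := Cs) (fun _ _ => Nat.zero_le _) (Finset.mem_univ j)
    omega
  refine ⟨(2 * (L * B)) ^ (((r + 1) * K + 1) * K), fun ν hν => ?_⟩
  obtain ⟨K', rfl⟩ : ∃ K', K = K' + 1 := ⟨K - 1, by omega⟩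
  simp only [Nat.add_sub_cancel]
  set n : ℕ := r * (K' + 1) * ν with hn
  set N : ℕ := n + K' * ν with hN
  choose g hg using fun i k => den_le (hf i).1 N k
  have hgb : ∀ i k, k ≤ N → |g i k| ≤ ((L * B) ^ (N + 1) : ℕ) := by
    intro i k hk
    have h1 : |(g i k : ℚ)| ≤ ((L * B) ^ (N + 1) : ℕ) := by
      rw [← hg i k hk, abs_mul, Nat.abs_cast]
      have h2 : (Nat.lcmUpto N : ℚ) ≤ (L : ℚ) ^ (N + 1) := by
        have : Nat.lcmUpto N ≤ L ^ (N + 1) :=
          (hL N).trans (Nat.pow_le_pow_right hL1 (Nat.le_succ N))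
        exact_mod_cast this
      have h3 : |PowerSeries.coeff k (f i)| ≤ (B : ℚ) ^ (N + 1) := by
        have : Cs i ^ (k + 1) ≤ B ^ (N + 1) :=
          (Nat.pow_le_pow_left (hCB i) _).trans (Nat.pow_le_pow_right hB1 (by omega))
        exact (hCs i k).trans (by exact_mod_cast this)
      push_cast
      rw [mul_pow]
      gcongr
    exact_mod_cast h1
  let A : Matrix (Fin r × Fin (K' * ν)) (Fin (n + 1)) ℤ :=
    Matrix.of fun p l => g p.1.succ (n + 1 + p.2 - l)
  have hLB : 1 ≤ L * B := Nat.mul_pos hL1 hB1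
  have hca : Fintype.card (Fin r × Fin (K' * ν)) = r * (K' * ν) := by simp
  have hcb : Fintype.card (Fin (n + 1)) = n + 1 := by simp
  have hn' : n = r * (K' * ν) + r * ν := by rw [hn]; ring
  obtain ⟨t, ht0, ht1, ht2⟩ := siegel A ((L * B) ^ (N + 1)) K' (Nat.one_le_pow _ _ hLB)
    (fun p l => hgb _ _ (by have := p.2.2; omega)) (by rw [hca, hcb]; omega)
    (by
      rw [hca, hcb]
      have : n + 1 - r * (K' * ν) = r * ν + 1 := by omega
      rw [this]
      nlinarith)
  refine ⟨pol t, ?_, ?_, ?_, ?_, ?_⟩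
  · intro h
    apply ht0
    ext l
    have := pol_coeff t l
    rw [h, dif_pos l.2] at this
    simpa using this.symm
  · intro k
    rw [pol_coeff]
    split_ifs with h
    · exact ⟨_, rfl⟩
    · exact ⟨0, by simp⟩
  · rw [natDegree_le_iff_coeff_eq_zero]
    intro k hk
    rw [pol_coeff, dif_neg (by omega)]
  · intro k
    rw [pol_coeff]
    split_ifs with h
    · have h1 := ht2 ⟨k, h⟩
      rw [hcb] at h1
      have h2 : ((n + 1) * (L * B) ^ (N + 1)) ^ K' ≤
          ((2 * (L * B)) ^ (((r + 1) * (K' + 1) + 1) * (K' + 1))) ^ ν := by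
        have h3 : n + 1 ≤ 2 ^ (N + 1) :=
          (Nat.lt_two_pow_self (n := n + 1)).le.trans (Nat.pow_le_pow_right (by norm_num) (by omega))
        calc ((n + 1) * (L * B) ^ (N + 1)) ^ K' ≤ (2 ^ (N + 1) * (L * B) ^ (N + 1)) ^ K' := by
              gcongr
          _ = (2 * (L * B)) ^ ((N + 1) * K') := by rw [← mul_pow, ← pow_mul]
          _ ≤ (2 * (L * B)) ^ (((r + 1) * (K' + 1) + 1) * (K' + 1) * ν) := by
              apply Nat.pow_le_pow_right (by omega)
              have h4 : N + 1 ≤ ((r + 1) * (K' + 1) + 1) * ν := by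
                rw [hN, hn]
                nlinarith
              calc (N + 1) * K' ≤ (((r + 1) * (K' + 1) + 1) * ν) * (K' + 1) :=
                    Nat.mul_le_mul h4 (Nat.le_succ _)
                _ = _ := by ring
          _ = _ := by rw [pow_mul]
      have h5 : |t ⟨k, h⟩| ≤
          ((((2 * (L * B)) ^ (((r + 1) * (K' + 1) + 1) * (K' + 1))) ^ ν : ℕ) : ℤ) :=
        h1.trans (by exact_mod_cast h2)
      exact_mod_cast h5
    · rw [abs_zero]
      positivity
  · intro i j hj1 hj2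
    refine Fin.cases ?_ (fun i => ?_) i
    · rw [h0, mul_one, Polynomial.coeff_coe, pol_coeff, dif_neg (by omega)]
    · rw [pol_mul t _ j (by omega)]
      have hs : j - (n + 1) < K' * ν := by omega
      have h1 := congrFun ht1 (i, ⟨j - (n + 1), hs⟩)
      simp only [Matrix.mulVec, dotProduct, A, Matrix.of_apply, Pi.zero_apply] at h1
      have h2 : n + 1 + (j - (n + 1)) = j := by omega
      rw [h2] at h1
      have h3 : (Nat.lcmUpto N : ℚ) ≠ 0 := by exact_mod_cast Nat.lcmUpto_ne_zero N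
      apply mul_left_cancel₀ h3
      rw [mul_zero, Finset.mul_sum]
      have h4 : ((∑ l : Fin (n + 1), g i.succ (j - l) * t l : ℤ) : ℚ) = 0 := by
        rw [h1]; simp
      rw [← h4]
      push_cast
      refine Finset.sum_congr rfl fun l _ => ?_
      rw [← hg i.succ (j - l) (by omega)]
      ring

end Pool.Agent.MP_c1891a_nt.H76
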